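import Pool.Agent.helper54.TS.Spec

set_option autoImplicit false

open Polynomial Finset

noncomputable section

namespace Pool.Agent.TS

open Pool.Agent.PSA (IsSalem Indep Fac)

/-- The orbit of `1` stays in `[0, 1]`. -/
theorem KTH_rng {β : ℝ} {F : ℝ → ℝ} {δ : ℝ} (h : RB β F δ) :
    ∀ m, 0 ≤ F^[m] 1 ∧ F^[m] 1 ≤ 1 := by
  intro m
  induction m with
  | zero => simp
  | succ m ih =>
    rw [Function.iterate_succ_apply']
    obtain ⟨h1, h2⟩ := h.rng _ ih.1 ih.2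
    exact ⟨h1, h2.le⟩

theorem KTH_lt {β : ℝ} {F : ℝ → ℝ} {δ : ℝ} (h : RB β F δ) (m : ℕ) (hm : 1 ≤ m) : F^[m] 1 < 1 := by
  obtain ⟨k, rfl⟩ : ∃ k, m = k + 1 := ⟨m - 1, by omega⟩
  rw [Function.iterate_succ_apply']
  obtain ⟨h1, h2⟩ := KTH_rng h k
  exact (h.rng _ h1 h2).2

theorem KTH_grow {β : ℝ} {F : ℝ → ℝ} {δ : ℝ} (hβ : 1 < β) (h : RB β F δ) (m : ℕ) :
    ∀ n, F^[m + n] 1 ≤ β ^ n * F^[m] 1 := by
  intro n
  induction n with
  | zero => simp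
  | succ n ih =>
    rw [← Nat.add_assoc, Function.iterate_succ_apply']
    obtain ⟨h1, h2⟩ := KTH_rng h (m + n)
    have h3 := h.le _ h1 h2
    have h4 : β * F^[m + n] 1 ≤ β * (β ^ n * F^[m] 1) := mul_le_mul_of_nonneg_left ih (by linarith)
    calc F (F^[m + n] 1) ≤ β * (β ^ n * F^[m] 1) := le_trans h3 h4
      _ = β ^ (n + 1) * F^[m] 1 := by ring

/-- Iterating a sequence. -/
theorem KTH_seq {F : ℝ → ℝ} (X : ℕ → ℝ) (hX : ∀ n, F (X n) = X (n + 1)) : ∀ n, F^[n] (X 0) = X n := by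
  intro n
  induction n with
  | zero => rfl
  | succ n ih => rw [Function.iterate_succ_apply', ih, hX]

/-- The prefix. -/
theorem KTH_pre {β : ℝ} {F : ℝ → ℝ} {δ : ℝ} (hβ : 1 < β) (h : RB β F δ) (J : ℕ) (d : ℝ) (hd : 0 ≤ d)
    (hJ : β ^ J * d ≤ F^[J] 1) : ∀ m, m ≤ J → F^[m] (1 - d) = F^[m] 1 - β ^ m * d := by
  have key : ∀ m, m ≤ J → β ^ m * d ≤ F^[m] 1 := by
    intro m hm
    obtain ⟨n, rfl⟩ := Nat.exists_eq_add_of_le hm
    have h1 := KTH_grow hβ h m n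
    have h2 : β ^ n * (β ^ m * d) ≤ β ^ n * F^[m] 1 := by
      calc β ^ n * (β ^ m * d) = β ^ (m + n) * d := by ring
        _ ≤ F^[m + n] 1 := hJ
        _ ≤ _ := h1
    exact le_of_mul_le_mul_left h2 (by positivity)
  intro m
  induction m with
  | zero => intro _; simp
  | succ m ih =>
    intro hm
    have hm' : m ≤ J := by omega
    rw [Function.iterate_succ_apply', ih hm', Function.iterate_succ_apply']
    obtain ⟨h1, h2⟩ := KTH_rng h m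
    have h3 := key m hm'
    have h4 := key (m + 1) hm
    rw [Function.iterate_succ_apply'] at h4
    have h5 : β * (F^[m] 1 - (F^[m] 1 - β ^ m * d)) = β ^ (m + 1) * d := by ring
    have h6 := h.cell (F^[m] 1 - β ^ m * d) (F^[m] 1) (by linarith)
      (by have : 0 ≤ β ^ m * d := by positivity
          linarith) h2 (by rw [h5]; exact h4)
    rw [h6, h5]

/-- The echo, first part. -/
theorem KTH_echo {β : ℝ} {F : ℝ → ℝ} {δ : ℝ} (hβ : 1 < β) (h : RB β F δ) (d : ℝ) (hd : 0 ≤ d) (hd1 : d < 1)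
    (r : ℕ) : ∀ m, m ≤ r → F^[m] (β⁻¹ ^ r * d) = β⁻¹ ^ (r - m) * d := by
  intro m
  induction m with
  | zero => intro _; simp
  | succ m ih =>
    intro hm
    rw [Function.iterate_succ_apply', ih (by omega)]
    have hz0 : 0 < β⁻¹ := by positivity
    have hz1 : β⁻¹ ≤ 1 := by
      rw [inv_le_one_iff₀]; right; exact hβ.le
    have e1 : r - m = (r - (m + 1)) + 1 := by omega
    rw [e1, pow_succ']
    have h1 : β⁻¹ ^ (r - (m + 1)) ≤ 1 := pow_le_one₀ hz0.le hz1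
    have h2 : 0 ≤ β⁻¹ ^ (r - (m + 1)) * d := by positivity
    have h3 : β⁻¹ ^ (r - (m + 1)) * d < 1 := by
      calc β⁻¹ ^ (r - (m + 1)) * d ≤ 1 * d := mul_le_mul_of_nonneg_right h1 hd
        _ < 1 := by linarith
    rw [mul_assoc, h.z0 _ h2 h3]

theorem KTH_echo_lt {β : ℝ} {F : ℝ → ℝ} {δ : ℝ} (hβ : 1 < β) (h : RB β F δ) (D : ℕ → ℝ) (c : ℝ)
    (hD : ∀ n, 0 ≤ D n ∧ D n < c ∧ F (D n) = D (n + 1)) (hc : c ≤ 1) (r : ℕ) :
    ∀ m, F^[m] (β⁻¹ ^ r * D 0) < c := by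
  intro m
  have hd := hD 0
  rcases Nat.lt_or_ge r m with hm | hm
  · obtain ⟨n, rfl⟩ : ∃ n, m = n + r := ⟨m - r, by omega⟩
    rw [Function.iterate_add_apply, KTH_echo hβ h (D 0) hd.1 (lt_of_lt_of_le hd.2.1 hc) r r le_rfl]
    simp only [Nat.sub_self, pow_zero, one_mul]
    rw [KTH_seq D (fun n => (hD n).2.2) n]
    exact (hD n).2.1
  · rw [KTH_echo hβ h (D 0) hd.1 (lt_of_lt_of_le hd.2.1 hc) r m hm]
    have hz0 : 0 < β⁻¹ := by positivity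
    have hz1 : β⁻¹ ≤ 1 := by
      rw [inv_le_one_iff₀]; right; exact hβ.le
    have h1 : β⁻¹ ^ (r - m) ≤ 1 := pow_le_one₀ hz0.le hz1
    calc β⁻¹ ^ (r - m) * D 0 ≤ 1 * D 0 := mul_le_mul_of_nonneg_right h1 hd.1
      _ < c := by rw [one_mul]; exact hd.2.1

theorem KTH_fin {F : ℝ → ℝ} (x : ℝ) (r : ℕ) (X : ℕ → ℝ) (hX : ∀ n, F (X n) = X (n + 1))
    (h0 : F^[r] x = X 0) (hf : (Set.range X).Finite) : (Set.range (fun m => F^[m] x)).Finite := by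
  have h1 : ((fun m => F^[m] x) '' (Set.Iic r)).Finite := (Set.finite_Iic r).image _
  refine (h1.union hf).subset ?_
  rintro y ⟨m, rfl⟩
  rcases Nat.lt_or_ge r m with hm | hm
  · right
    obtain ⟨n, rfl⟩ : ∃ n, m = n + r := ⟨m - r, by omega⟩
    refine ⟨n, ?_⟩
    show X n = F^[n + r] x
    rw [Function.iterate_add_apply, h0, KTH_seq X hX n]
  · left
    exact ⟨m, hm, rfl⟩

theorem KTH : KTH_stmt := by
  intro β F δ hβ h τ J X D hτ h0 hX hD hD0 hXf hDf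
  have hβ0 : 0 < β := by linarith
  have hz0 : 0 < β⁻¹ := by positivity
  have hz1 : β⁻¹ < 1 := inv_lt_one_of_one_lt₀ hβ
  have hzJ : 0 < β⁻¹ ^ J := by positivity
  have hzτ : 0 < β⁻¹ ^ τ := by positivity
  have hzτ1 : β⁻¹ ^ τ < 1 := pow_lt_one₀ hz0.le hz1 (by omega)
  have hJJ : β ^ J * β⁻¹ ^ J = 1 := by rw [← mul_pow, mul_inv_cancel₀ hβ0.ne', one_pow]
  have hD1 : D 0 < 1 := by have := (hD 0).2.1; linarith
  set d : ℝ := (1 + β⁻¹ ^ τ) * β⁻¹ ^ J * D 0 with hd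
  have hdpos : 0 < d := by positivity
  have hd2 : d < 2 * β⁻¹ ^ J := by
    have e1 : (1 + β⁻¹ ^ τ) * D 0 < 2 := by nlinarith
    have e2 : d = ((1 + β⁻¹ ^ τ) * D 0) * β⁻¹ ^ J := by rw [hd]; ring
    rw [e2]
    exact mul_lt_mul_of_pos_right e1 hzJ
  have hlow : 1 - 2 * β⁻¹ ^ J < 1 - d := by linarith
  have hbd : β ^ J * d = (1 + β⁻¹ ^ τ) * D 0 := by
    rw [hd]
    calc β ^ J * ((1 + β⁻¹ ^ τ) * β⁻¹ ^ J * D 0) = (β ^ J * β⁻¹ ^ J) * ((1 + β⁻¹ ^ τ) * D 0) := by ring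
      _ = _ := by rw [hJJ, one_mul]
  have hJ : β ^ J * d ≤ F^[J] 1 := by
    rw [hbd, ← h0]
    have := (hX 0).1
    linarith
  have hpre := KTH_pre hβ h J d hdpos.le hJ
  have hkJ : F^[J] (1 - d) = X 0 := by
    rw [hpre J le_rfl, hbd, ← h0]; ring
  have hXs : ∀ n, F (X n) = X (n + 1) := fun n => (hX n).2.2
  have hDs : ∀ n, F (D n) = D (n + 1) := fun n => (hD n).2.2
  have hc1 : 1 - 2 * β⁻¹ ^ J ≤ 1 := by linarith
  have e1 : (1 - β⁻¹ ^ (τ + J) * D 0) - (1 - d) = β⁻¹ ^ J * D 0 := by rw [hd, pow_add]; ring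
  have e2 : 1 - (1 - β⁻¹ ^ (τ + J) * D 0) = β⁻¹ ^ (τ + J) * D 0 := by ring
  have hep : 0 < β⁻¹ ^ J * D 0 := by positivity
  have hep2 : 0 < β⁻¹ ^ (τ + J) * D 0 := by positivity
  have hr : ∀ r : ℕ, F^[r] (β⁻¹ ^ r * D 0) = D 0 := by
    intro r
    rw [KTH_echo hβ h (D 0) hD0.le hD1 r r le_rfl]
    simp
  refine ⟨hlow, ⟨by linarith, by linarith, ?_, ?_, ?_, ?_, ?_, ?_⟩⟩
  · intro m hm
    rcases Nat.lt_or_ge J m with hJm | hJm
    · obtain ⟨n, rfl⟩ : ∃ n, m = n + J := ⟨m - J, by omega⟩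
      rw [Function.iterate_add_apply, hkJ, KTH_seq X hXs n]
      exact lt_trans (hX n).2.1 hlow
    · rw [hpre m hJm]
      have h1 := KTH_lt h m hm
      have h2 : 1 ≤ β ^ m := one_le_pow₀ hβ.le
      have h3 : d ≤ β ^ m * d := by nlinarith
      linarith
  · intro m
    rw [e1]
    exact lt_trans (KTH_echo_lt hβ h D _ hD hc1 J m) hlow
  · intro m
    rw [e2]
    exact lt_trans (KTH_echo_lt hβ h D _ hD hc1 (τ + J) m) hlow
  · exact KTH_fin _ J X hXs hkJ hXf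
  · rw [e1]
    exact KTH_fin _ J D hDs (hr J) hDf
  · rw [e2]
    exact KTH_fin _ (τ + J) D hDs (hr (τ + J)) hDf

end Pool.Agent.TS
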